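import Pool.Agent.Results.MP_d0a72d_lc.NotFiniteUnion

/-!
A polynomial in four variables whose set of non-solvability is not a finite union of basic open
sets.
-/

namespace Pool.Agent.Y668.FV

open MvPolynomial hiding C
open Pool.Agent.H700R2.Jac
open Pool.Agent.Results.MP_d0a72d_lc.NotFiniteUnion

/-- the prime at which `2 P0` reduces to infinity -/
noncomputable def c0 : ℕ := (P 0 : ℕ)

/-- the polynomial; the variables are `σ, t, r, u` and `s = c0 σ` -/
noncomputable def poly4 : MvPolynomial (Fin 4) ℤ :=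
  (X 1 ^ 2 - 1 + 2 * (MvPolynomial.C (c0 : ℤ) * X 0) ^ 2 +
      4 * (MvPolynomial.C (c0 : ℤ) * X 0) ^ 4) ^ 2 +
    (X 0 * X 2 - X 3 ^ 2 - 1) ^ 2

theorem aeval_poly4 {S : Type} [CommRing S] (x : Fin 4 → S) : aeval x poly4 =
    (x 1 ^ 2 - 1 + 2 * ((c0 : S) * x 0) ^ 2 + 4 * ((c0 : S) * x 0) ^ 4) ^ 2 +
    (x 0 * x 2 - x 3 ^ 2 - 1) ^ 2 := by
  unfold poly4
  simp only [map_add, map_mul, map_pow, map_sub, map_one, map_ofNat, aeval_X, aeval_C]
  simp

theorem mem_A4_iff (W : Nat.Primes → Bool) : W ∈ A poly4 ↔ ∃ x : Fin 4 → ℚ,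
    (∀ i, ∀ p : Nat.Primes, W p = false → padicNorm p (x i) ≤ 1) ∧
    x 1 ^ 2 = 1 - 2 * ((c0 : ℚ) * x 0) ^ 2 - 4 * ((c0 : ℚ) * x 0) ^ 4 ∧
    x 0 * x 2 = x 3 ^ 2 + 1 := by
  constructor
  · rintro ⟨a, ha⟩
    refine ⟨fun i => (a i : ℚ), fun i p hp => norm_le_of_mem (a i).2 hp, ?_⟩
    rw [aeval_poly4] at ha
    have h := congrArg (R W).subtype ha
    simp only [map_add, map_mul, map_pow, map_sub, map_one, map_ofNat, map_zero, map_natCast,
      Subring.subtype_apply] at h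
    show ((a 1 : R W) : ℚ) ^ 2 = 1 - 2 * ((c0 : ℚ) * ((a 0 : R W) : ℚ)) ^ 2 -
        4 * ((c0 : ℚ) * ((a 0 : R W) : ℚ)) ^ 4 ∧
      ((a 0 : R W) : ℚ) * ((a 2 : R W) : ℚ) = ((a 3 : R W) : ℚ) ^ 2 + 1
    generalize ((a 0 : R W) : ℚ) = x0 at *
    generalize ((a 1 : R W) : ℚ) = x1 at *
    generalize ((a 2 : R W) : ℚ) = x2 at *
    generalize ((a 3 : R W) : ℚ) = x3 at *
    have q1 := sq_nonneg (x1 ^ 2 - 1 + 2 * ((c0 : ℚ) * x0) ^ 2 + 4 * ((c0 : ℚ) * x0) ^ 4)
    have q2 := sq_nonneg (x0 * x2 - x3 ^ 2 - 1)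
    have e1 : (x1 ^ 2 - 1 + 2 * ((c0 : ℚ) * x0) ^ 2 + 4 * ((c0 : ℚ) * x0) ^ 4) ^ 2 = 0 := by
      linarith
    have e2 : (x0 * x2 - x3 ^ 2 - 1) ^ 2 = 0 := by linarith
    have f1 := (pow_eq_zero_iff (two_ne_zero)).1 e1
    have f2 := (pow_eq_zero_iff (two_ne_zero)).1 e2
    exact ⟨by linarith, by linarith⟩
  · rintro ⟨x, hx, h1, h2⟩
    refine ⟨fun i => ⟨x i, mem_of_norm (hx i)⟩, ?_⟩
    rw [aeval_poly4]
    have inj : Function.Injective (R W).subtype := Subtype.coe_injective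
    apply inj
    simp only [map_add, map_mul, map_pow, map_sub, map_one, map_ofNat, map_zero, map_natCast,
      Subring.subtype_apply]
    have e1 : x 1 ^ 2 - 1 + 2 * ((c0 : ℚ) * x 0) ^ 2 + 4 * ((c0 : ℚ) * x 0) ^ 4 = 0 := by
      rw [h1]; ring
    have e2 : x 0 * x 2 - x 3 ^ 2 - 1 = 0 := by rw [h2]; ring
    rw [e1, e2]; norm_num

/-! ### Norms of `c0` -/

theorem nm_c0 : padicNorm (P 0) (c0 : ℚ) < 1 := by
  unfold c0
  exact padicNorm.padicNorm_p_lt_one_of_prime

theorem nm_c0_le (p : Nat.Primes) : padicNorm p (c0 : ℚ) ≤ 1 := padicNorm.of_nat _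

theorem nm_c0_eq {p : Nat.Primes} (h : p ≠ P 0) : padicNorm p (c0 : ℚ) = 1 := by
  refine (padicNorm.nat_eq_one_iff _).2 ?_
  intro h1
  exact h (Subtype.ext ((Nat.prime_dvd_prime_iff_eq p.2 (P 0).2).1 h1))

theorem c0_ne : (c0 : ℚ) ≠ 0 := by
  unfold c0
  exact_mod_cast (P 0).2.ne_zero

theorem nm_div_c0 {x : ℚ} (hx : padicNorm (P 0) x < 1) : padicNorm (P 0) (x / (c0 : ℚ)) ≤ 1 := by
  by_cases h0 : x = 0
  · rw [h0, zero_div, padicNorm.zero]; exact zero_le_one
  have hp1 : (1 : ℚ) < ((P 0 : ℕ) : ℚ) := by exact_mod_cast (P 0).2.one_lt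
  have hc : padicNorm (P 0) (c0 : ℚ) = ((P 0 : ℕ) : ℚ)⁻¹ := by
    unfold c0
    exact padicNorm.padicNorm_p (P 0).2.one_lt
  rw [padicNorm.div, hc, div_inv_eq_mul]
  rw [padicNorm.eq_zpow_of_nonzero h0] at hx ⊢
  have h1 : -padicValRat (P 0) x < 0 := by
    by_contra hcon
    push Not at hcon
    exact absurd hx (not_lt.2 (one_le_zpow₀ hp1.le hcon))
  rw [← zpow_add_one₀ (by positivity : ((P 0 : ℕ) : ℚ) ≠ 0)]
  exact zpow_le_one_of_nonpos₀ hp1.le (by omega)

/-! ### Non-solvability -/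

theorem no_sol4 {k : ℕ} (hk : 1 ≤ k) {q : Nat.Primes} (hq3 : (q : ℕ) % 4 = 3)
    (hqt : padicNorm q (E k).t < 1) {W : Nat.Primes → Bool} (hWP : ∀ j < k, W (P j) = false)
    (hWq : W q = false) : W ∉ A poly4 := by
  rw [mem_A4_iff]
  rintro ⟨x, hx, h1, h3⟩
  have hs0 : x 0 ≠ 0 := by
    intro h
    rw [h, zero_mul] at h3
    nlinarith [sq_nonneg (x 3)]
  have hs1 : (c0 : ℚ) * x 0 ≠ 0 := mul_ne_zero c0_ne hs0
  obtain ⟨e, m, hm, hs⟩ := exists_mult' (Q := ⟨(c0 : ℚ) * x 0, x 1, h1⟩) hs1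
  change (c0 : ℚ) * x 0 = (m • E e).s ∨ (c0 : ℚ) * x 0 = -(m • E e).s at hs
  -- the norm of `s` is at most one at the excluded primes, and less than one at `P 0`
  have hnm : ∀ p : Nat.Primes, padicNorm p (m • E e).s = padicNorm p (c0 : ℚ) * padicNorm p (x 0) := by
    intro p
    rw [← padicNorm.mul]
    rcases hs with h | h
    · rw [h]
    · rw [h, padicNorm.neg]
  have hlt0 : padicNorm (P 0) (m • E e).s < 1 := by
    rw [hnm, ← padicNorm.mul, mul_comm]
    exact nm_mul_lt (hx 0 (P 0) (hWP 0 hk)) nm_c0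
  have hle : ∀ p : Nat.Primes, W p = false → padicNorm p (m • E e).s ≤ 1 := by
    intro p hp
    rw [hnm, ← padicNorm.mul]
    exact nm_mul_le (nm_c0_le p) (hx 0 p hp)
  rcases Nat.eq_zero_or_pos e with he | he
  · -- an odd multiple
    subst he
    have hb : Big (P 0) (E (0 + 1)) := P_big 0
    have hb' : Big (P 0) (m • E 0 + m • E 0) := by
      have : m • E 0 + m • E 0 = m • E (0 + 1) := by rw [E_succ, smul_add]
      rw [this]
      exact hb.odd_nsmul (P_ne 0) hm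
    have hker : Ker (P 0) (m • E 0) := hlt0
    have hker2 : Ker (P 0) (2 • (m • E 0)) := hker.nsmul 2
    rw [two_smul] at hker2
    have h5 : padicNorm (P 0) (m • E 0 + m • E 0).s < 1 := hker2
    have h6 : 1 < padicNorm (P 0) (m • E 0 + m • E 0).s := hb'
    linarith
  rcases Nat.lt_or_ge k e with hke | hke
  · -- multiples of a high power of two
    have hker : Ker q (m • E e) := by
      apply Ker.nsmul
      apply E_ker_mono (k := k + 1) (by omega)
      rw [E_succ]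
      exact ker_of_t hq3 hqt
    have hq0 : q ≠ P 0 := by
      rintro rfl
      exact P_mod 0 hq3
    have hker' : padicNorm q (x 0) < 1 := by
      have h5 : padicNorm q (m • E e).s < 1 := hker
      rw [hnm, nm_c0_eq hq0, one_mul] at h5
      exact h5
    have h5 : padicNorm q (x 3 ^ 2 + 1 ^ 2) < 1 := by
      rw [one_pow, ← h3, mul_comm]
      exact nm_mul_lt (hx 2 q hWq) hker'
    exact rat_mod_four (hx 3 q hWq) padicNorm.one h5 hq3
  · -- the remaining multiples
    obtain ⟨j, rfl⟩ : ∃ j, e = j + 1 := ⟨e - 1, by omega⟩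
    have hb : Big (P j) (m • E (j + 1)) := (P_big j).odd_nsmul (P_ne j) hm
    have h5 : 1 < padicNorm (P j) (m • E (j + 1)).s := hb
    have h6 := hle (P j) (hWP j (by omega))
    linarith

/-! ### Solvability -/

theorem sol4 (k : ℕ) {W : Nat.Primes → Bool} (hW : ∀ p, W p = false → ∃ j < k, P j = p) :
    W ∈ A poly4 := by
  rw [mem_A4_iff]
  set Q : Pt := E (k + 1) with hQ
  have hs0 : Q.s ≠ 0 := (E_good k).2
  set M : ℤ := Q.s.num with hM
  have hM0 : M ≠ 0 := by rw [hM, Ne, Rat.num_eq_zero]; exact hs0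
  obtain ⟨u, hu⟩ := exists_sqrt ((Finset.range k).image P) (by
    intro p hp
    obtain ⟨j, _, rfl⟩ := Finset.mem_image.1 hp
    exact ⟨P_ne j, P_mod j⟩) M.natAbs
  have hmul : (c0 : ℚ) * (Q.s / (c0 : ℚ)) = Q.s := mul_div_cancel₀ _ c0_ne
  refine ⟨![Q.s / (c0 : ℚ), Q.t, (c0 : ℚ) * (((u ^ 2 + 1 : ℤ) : ℚ) / Q.s), (u : ℚ)],
    ?_, ?_, ?_⟩
  · intro i p hp
    obtain ⟨j, hj, rfl⟩ := hW p hp
    have hk : Ker (P j) Q := E_ker_P hj
    fin_cases i
    · show padicNorm (P j) (Q.s / (c0 : ℚ)) ≤ 1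
      by_cases h0 : P j = P 0
      · have hk' : padicNorm (P 0) Q.s < 1 := by rw [← h0]; exact hk
        rw [h0]
        exact nm_div_c0 hk'
      · rw [padicNorm.div, nm_c0_eq h0, div_one]
        exact hk.le
    · exact hk.t.le
    · show padicNorm (P j) ((c0 : ℚ) * (((u ^ 2 + 1 : ℤ) : ℚ) / Q.s)) ≤ 1
      refine nm_mul_le (nm_c0_le _) ?_
      have h1 := hu (P j) (Finset.mem_image_of_mem _ (Finset.mem_range.2 hj))
      have h2 : ¬ (((P j : ℕ) ^ (M.natAbs + 1) : ℕ) : ℤ) ∣ M := by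
        intro h
        have h3 : (P j : ℕ) ^ (M.natAbs + 1) ∣ M.natAbs := Int.natCast_dvd.1 h
        have h4 := Nat.le_of_dvd (Int.natAbs_pos.2 hM0) h3
        have h5 : M.natAbs + 1 < (P j : ℕ) ^ (M.natAbs + 1) := Nat.lt_pow_self (P j).2.one_lt
        omega
      rw [padicNorm.dvd_iff_norm_le] at h1 h2
      have h3 : padicNorm (P j) (M : ℚ) ≤ padicNorm (P j) Q.s := by
        have h4 : (M : ℚ) = Q.s * Q.s.den := (Rat.mul_den_eq_num Q.s).symm
        rw [h4, padicNorm.mul]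
        exact mul_le_of_le_one_right (nm_nonneg _) (padicNorm.of_nat _)
      have h5 : 0 < padicNorm (P j) Q.s :=
        lt_of_le_of_ne (nm_nonneg _) (Ne.symm (padicNorm.nonzero hs0))
      rw [padicNorm.div, div_le_one h5]
      exact le_trans h1 (le_trans (not_le.1 h2).le h3)
    · exact nm_int u
  · show Q.t ^ 2 = 1 - 2 * ((c0 : ℚ) * (Q.s / (c0 : ℚ))) ^ 2 - 4 * ((c0 : ℚ) * (Q.s / (c0 : ℚ))) ^ 4
    rw [hmul]
    exact Q.h
  · show Q.s / (c0 : ℚ) * ((c0 : ℚ) * (((u ^ 2 + 1 : ℤ) : ℚ) / Q.s)) = (u : ℚ) ^ 2 + 1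
    have hc := c0_ne
    have e : Q.s / (c0 : ℚ) * ((c0 : ℚ) * (((u ^ 2 + 1 : ℤ) : ℚ) / Q.s)) = ((u ^ 2 + 1 : ℤ) : ℚ) := by
      field_simp
    rw [e]
    push_cast; ring

/-! ### Topology -/

theorem W2_mem4 {k : ℕ} (hk : 2 ≤ k) (ht : (E k).t < 0) : W2 k ∈ C poly4 := by
  obtain ⟨l, rfl⟩ : ∃ l, k = l + 1 + 1 := ⟨k - 2, by omega⟩
  have hq : ∃ q : ℕ, q.Prime ∧ q % 4 = 3 ∧ padicNorm q (E (l + 1 + 1)).t < 1 := by
    rw [E_succ (l + 1)] at ht ⊢
    exact exists_q (E_good l) ht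
  obtain ⟨h1, h2, h3⟩ := qk_spec hq
  unfold C
  rw [mem_interior]
  refine ⟨{W | ∀ p ∈ insert (⟨qk (l + 1 + 1), h1⟩ : Nat.Primes)
    ((Finset.range (l + 1 + 1)).image P), W p = false}, ?_, isOpen_cyl _, ?_⟩
  · intro W hW
    apply no_sol4 (k := l + 1 + 1) (by omega) (q := ⟨qk (l + 1 + 1), h1⟩) h2 h3
    · intro j hj
      exact hW _ (Finset.mem_insert_of_mem (Finset.mem_image_of_mem _ (Finset.mem_range.2 hj)))
    · exact hW _ (Finset.mem_insert_self _ _)
  · intro p hp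
    unfold W2
    rw [decide_eq_false_iff_not]
    rintro ⟨h4, h5⟩
    rcases Finset.mem_insert.1 hp with h6 | h6
    · exact h5 (by rw [h6])
    · obtain ⟨j, hj, h7⟩ := Finset.mem_image.1 h6
      exact h4 j (Finset.mem_range.1 hj) h7

theorem not_isClosed4 : ¬ IsClosed (C poly4) := by
  intro hcl
  have h1 : Winf ∈ closure (C poly4) := by
    apply mem_closure_of_frequently_of_tendsto _ W2_tendsto
    rw [Filter.frequently_atTop]
    intro K
    obtain ⟨k, hk, ht⟩ := E_neg (K + 2)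
    exact ⟨k, by omega, W2_mem4 (by omega) ht⟩
  rw [hcl.closure_eq] at h1
  have h2 : Winf ∈ closure (A poly4) := by
    apply mem_closure_of_tendsto W1_tendsto
    apply Filter.Eventually.of_forall
    intro k
    apply sol4 k
    intro p hp
    unfold W1 at hp
    rw [decide_eq_false_iff_not] at hp
    push Not at hp
    exact hp
  unfold C at h1
  rw [interior_compl] at h1
  exact h1 h2

theorem poly4_not : ¬ ∃ S : Finset (Finset Nat.Primes × Finset Nat.Primes),
    C poly4 = ⋃ x ∈ S, U x.1 x.2 := by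
  rintro ⟨S, hS⟩
  apply not_isClosed4
  rw [hS]
  exact isClosed_biUnion_finset fun x _ => isClosed_U x.1 x.2

/-! ### More variables -/

theorem A_rename {m n : ℕ} (g : Fin m ↪ Fin n) (f : MvPolynomial (Fin m) ℤ) :
    A (rename g f) = A f := by
  ext W
  constructor
  · rintro ⟨a, ha⟩
    refine ⟨fun i => a (g i), ?_⟩
    rw [aeval_rename] at ha
    exact ha
  · rintro ⟨a, ha⟩
    classical
    refine ⟨fun j => if h : ∃ i, g i = j then a h.choose else 0, ?_⟩
    rw [aeval_rename]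
    have e : (fun j => if h : ∃ i, g i = j then a h.choose else 0) ∘ g = a := by
      funext i
      have h : ∃ i', g i' = g i := ⟨i, rfl⟩
      simp only [Function.comp]
      rw [dif_pos h]
      exact congrArg a (g.injective h.choose_spec)
    rw [e]
    exact ha

theorem many_vars {n : ℕ} (hn : 4 ≤ n) : ∃ f : MvPolynomial (Fin n) ℤ,
    ¬ ∃ S : Finset (Finset Nat.Primes × Finset Nat.Primes), C f = ⋃ x ∈ S, U x.1 x.2 := by
  refine ⟨rename (Fin.castLEEmb hn) poly4, ?_⟩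
  have h : C (rename (Fin.castLEEmb hn) poly4) = C poly4 := by
    unfold C
    rw [A_rename]
  rw [h]
  exact poly4_not

/-! ### One variable -/

theorem isOpen_U (F G : Finset Nat.Primes) : IsOpen (U F G) := by
  have h : ∀ (p : Nat.Primes) (b : Bool), IsOpen {W : Nat.Primes → Bool | W p = b} :=
    fun p b => (isOpen_discrete ({b} : Set Bool)).preimage
      (continuous_apply p : Continuous fun W : Nat.Primes → Bool => W p)
  have e : U F G = (⋂ p ∈ F, {W : Nat.Primes → Bool | W p = true}) ∩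
      ⋂ p ∈ G, {W : Nat.Primes → Bool | W p = false} := by
    ext W; simp [U]
  rw [e]
  exact (isOpen_biInter_finset fun p _ => h p true).inter
    (isOpen_biInter_finset fun p _ => h p false)

theorem finite_union_of_dep (X : Set (Nat.Primes → Bool)) (T : Finset Nat.Primes)
    (h : ∀ W W' : Nat.Primes → Bool, (∀ p ∈ T, W p = W' p) → W ∈ X → W' ∈ X) :
    ∃ S : Finset (Finset Nat.Primes × Finset Nat.Primes), X = ⋃ x ∈ S, U x.1 x.2 := by
  classical
  refine ⟨(T.powerset.filter (fun F => (fun p => decide (p ∈ F)) ∈ X)).image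
    (fun F => (F, T \ F)), ?_⟩
  ext W
  rw [Set.mem_iUnion₂]
  constructor
  · intro hW
    set F : Finset Nat.Primes := T.filter (fun p => W p = true) with hF
    refine ⟨(F, T \ F), ?_, ?_⟩
    · rw [Finset.mem_image]
      refine ⟨F, ?_, rfl⟩
      rw [Finset.mem_filter, Finset.mem_powerset]
      refine ⟨Finset.filter_subset _ _, ?_⟩
      refine h W _ (fun p hp => ?_) hW
      by_cases hp1 : W p = true
      · rw [hp1]
        symm
        rw [decide_eq_true_iff, hF, Finset.mem_filter]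
        exact ⟨hp, hp1⟩
      · have hp2 : W p = false := by simpa using hp1
        rw [hp2]
        symm
        rw [decide_eq_false_iff_not, hF, Finset.mem_filter]
        exact fun h' => hp1 h'.2
    · refine ⟨fun p hp => ?_, fun p hp => ?_⟩
      · simp only [hF, Finset.mem_filter] at hp
        exact hp.2
      · simp only [hF, Finset.mem_sdiff, Finset.mem_filter, not_and] at hp
        have := hp.2 hp.1
        simpa using this
  · rintro ⟨x, hx, hW⟩
    rw [Finset.mem_image] at hx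
    obtain ⟨F, hF, rfl⟩ := hx
    rw [Finset.mem_filter, Finset.mem_powerset] at hF
    refine h _ W (fun p hp => ?_) hF.2
    by_cases hpF : p ∈ F
    · rw [hW.1 p hpF]
      simpa using hpF
    · rw [hW.2 p (Finset.mem_sdiff.2 ⟨hp, hpF⟩)]
      simpa using hpF

theorem mem_R_iff (W : Nat.Primes → Bool) (x : ℚ) :
    x ∈ R W ↔ ∀ p : Nat.Primes, (p : ℕ) ∣ x.den → W p = true := by
  constructor
  · intro hx p hp
    by_contra hcon
    have h1 := norm_le_of_mem hx (p := p) (by simpa using hcon)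
    rw [nm_le_one_iff] at h1
    exact h1 hp
  · intro h
    apply mem_of_norm
    intro p hp
    rw [nm_le_one_iff]
    intro hd
    rw [h p hd] at hp
    exact absurd hp (by decide)

theorem one_var {n : ℕ} (hn : n ≤ 1) (f : MvPolynomial (Fin n) ℤ) :
    ∃ S : Finset (Finset Nat.Primes × Finset Nat.Primes), C f = ⋃ x ∈ S, U x.1 x.2 := by
  classical
  have hsub : Subsingleton (Fin n) := Fin.subsingleton_iff_le_one.2 hn
  set g : Polynomial ℤ := aeval (fun _ => Polynomial.X) f with hg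
  have hev : ∀ (S : Type) [CommRing S] (x : S), Polynomial.aeval x g = aeval (fun _ => x) f := by
    intro S _ x
    have h1 : (Polynomial.aeval x).comp (aeval (fun _ : Fin n => (Polynomial.X : Polynomial ℤ))) =
        (aeval (fun _ : Fin n => x) : MvPolynomial (Fin n) ℤ →ₐ[ℤ] S) := by
      apply MvPolynomial.algHom_ext
      intro i
      simp
    have h2 := congrArg (fun φ : MvPolynomial (Fin n) ℤ →ₐ[ℤ] S => φ f) h1
    exact h2
  have hA : ∀ W, W ∈ A f ↔ ∃ x : ℚ, x ∈ R W ∧ Polynomial.aeval x g = 0 := by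
    intro W
    constructor
    · rintro ⟨a, ha⟩
      obtain ⟨x, hx⟩ : ∃ x : R W, a = fun _ => x := by
        rcases isEmpty_or_nonempty (Fin n) with h | ⟨⟨i⟩⟩
        · exact ⟨0, funext fun i => h.elim i⟩
        · exact ⟨a i, funext fun j => congrArg a (Subsingleton.elim j i)⟩
      rw [hx, ← hev] at ha
      refine ⟨x, x.2, ?_⟩
      have h1 := congrArg (R W).subtype ha
      rw [map_zero] at h1
      rw [← h1]
      exact (Polynomial.aeval_algHom_apply ((R W).subtype.toIntAlgHom) x g)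
    · rintro ⟨x, hx, h0⟩
      refine ⟨fun _ => ⟨x, hx⟩, ?_⟩
      rw [← hev]
      have inj : Function.Injective (R W).subtype := Subtype.coe_injective
      apply inj
      rw [map_zero, ← h0]
      exact (Polynomial.aeval_algHom_apply ((R W).subtype.toIntAlgHom) (⟨x, hx⟩ : R W) g).symm
  by_cases hg0 : g = 0
  · have hAu : A f = Set.univ := by
      ext W
      rw [hA]
      simp only [Set.mem_univ, iff_true]
      exact ⟨0, Subring.zero_mem _, by rw [hg0, map_zero]⟩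
    refine ⟨∅, ?_⟩
    unfold C
    rw [hAu]
    simp
  · set Z : Finset ℚ := (g.aroots ℚ).toFinset with hZ
    have hZmem : ∀ x : ℚ, x ∈ Z ↔ Polynomial.aeval x g = 0 := by
      intro x
      rw [hZ, Multiset.mem_toFinset, Polynomial.mem_aroots]
      exact ⟨fun h => h.2, fun h => ⟨hg0, h⟩⟩
    set T : Finset Nat.Primes := Z.biUnion (fun x => x.den.primeFactors.attach.image
      (fun p => (⟨p.1, Nat.prime_of_mem_primeFactors p.2⟩ : Nat.Primes))) with hT
    have hTmem : ∀ x ∈ Z, ∀ p : Nat.Primes, (p : ℕ) ∣ x.den → p ∈ T := by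
      intro x hx p hp
      rw [hT, Finset.mem_biUnion]
      refine ⟨x, hx, ?_⟩
      rw [Finset.mem_image]
      exact ⟨⟨(p : ℕ), Nat.mem_primeFactors.2 ⟨p.2, hp, x.den_nz⟩⟩, Finset.mem_attach _ _, rfl⟩
    obtain ⟨S, hS⟩ := finite_union_of_dep (A f)ᶜ T (by
      intro W W' hWW hW hW'
      apply hW
      rw [hA] at hW' ⊢
      obtain ⟨x, hx, h0⟩ := hW'
      refine ⟨x, ?_, h0⟩
      rw [mem_R_iff] at hx ⊢
      intro p hp
      rw [hWW p (hTmem x ((hZmem x).2 h0) p hp)]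
      exact hx p hp)
    refine ⟨S, ?_⟩
    unfold C
    rw [← hS]
    apply IsOpen.interior_eq
    rw [hS]
    exact isOpen_biUnion (fun x _ => isOpen_U x.1 x.2)

end Pool.Agent.Y668.FV
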