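import Pool.Agent.Y668.FV.Four

/-!
Two variables: integral points of an affine plane curve of genus one.
-/

namespace Pool.Agent.Y668.FV

open MvPolynomial hiding C
open Pool.Agent.H700R2.Jac
open Pool.Agent.Results.MP_d0a72d_lc.NotFiniteUnion

/-- the polynomial, with `s = 11 x + 7` -/
noncomputable def poly2 : MvPolynomial (Fin 2) ℤ :=
  ((1 + 2 * (11 * X 0 + 7) ^ 2) * X 1 - 11) ^ 2 -
    (1 + 2 * (11 * X 0 + 7) ^ 2) ^ 2 * (1 - 2 * (11 * X 0 + 7) ^ 2 - 4 * (11 * X 0 + 7) ^ 4)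

theorem aeval_poly2 {S : Type} [CommRing S] (x : Fin 2 → S) : aeval x poly2 =
    ((1 + 2 * (11 * x 0 + 7) ^ 2) * x 1 - 11) ^ 2 -
    (1 + 2 * (11 * x 0 + 7) ^ 2) ^ 2 * (1 - 2 * (11 * x 0 + 7) ^ 2 - 4 * (11 * x 0 + 7) ^ 4) := by
  unfold poly2
  simp only [map_add, map_mul, map_pow, map_sub, map_one, map_ofNat, aeval_X]

theorem nm_nat_le {p : ℕ} [Fact p.Prime] (n : ℕ) [n.AtLeastTwo] :
    padicNorm p (OfNat.ofNat n : ℚ) ≤ 1 := by
  have h : padicNorm p ((n : ℕ) : ℚ) ≤ 1 := padicNorm.of_nat _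
  exact h

theorem mem_A2_iff (W : Nat.Primes → Bool) : W ∈ A poly2 ↔ ∃ Q : Pt,
    ∀ p : Nat.Primes, W p = false → padicNorm p ((Q.s - 7) / 11) ≤ 1 ∧
      padicNorm p (11 / (1 + 2 * Q.s ^ 2)) ≤ 1 := by
  constructor
  · rintro ⟨a, ha⟩
    rw [aeval_poly2] at ha
    have h := congrArg (R W).subtype ha
    simp only [map_add, map_mul, map_pow, map_sub, map_one, map_ofNat, map_zero,
      Subring.subtype_apply] at h
    have i0 : ∀ p : Nat.Primes, W p = false → padicNorm p ((a 0 : R W) : ℚ) ≤ 1 :=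
      fun p hp => norm_le_of_mem (a 0).2 hp
    have i1 : ∀ p : Nat.Primes, W p = false → padicNorm p ((a 1 : R W) : ℚ) ≤ 1 :=
      fun p hp => norm_le_of_mem (a 1).2 hp
    generalize ((a 0 : R W) : ℚ) = x0 at *
    generalize ((a 1 : R W) : ℚ) = x1 at *
    set s : ℚ := 11 * x0 + 7 with hs
    have hD : 1 + 2 * s ^ 2 ≠ 0 := by positivity
    set t : ℚ := x1 - 11 / (1 + 2 * s ^ 2) with ht
    have htD : (1 + 2 * s ^ 2) * t = (1 + 2 * s ^ 2) * x1 - 11 := by
      rw [ht]; field_simp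
    have ht2 : t ^ 2 = 1 - 2 * s ^ 2 - 4 * s ^ 4 := by
      have e : (1 + 2 * s ^ 2) ^ 2 * t ^ 2 = (1 + 2 * s ^ 2) ^ 2 * (1 - 2 * s ^ 2 - 4 * s ^ 4) := by
        have e1 : (1 + 2 * s ^ 2) ^ 2 * t ^ 2 = ((1 + 2 * s ^ 2) * x1 - 11) ^ 2 := by
          rw [← htD]; ring
        rw [e1]
        linear_combination h
      exact mul_left_cancel₀ (pow_ne_zero 2 hD) e
    refine ⟨⟨s, t, ht2⟩, fun p hp => ⟨?_, ?_⟩⟩
    · show padicNorm p ((s - 7) / 11) ≤ 1
      have e : (s - 7) / 11 = x0 := by rw [hs]; ring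
      rw [e]; exact i0 p hp
    · show padicNorm p (11 / (1 + 2 * s ^ 2)) ≤ 1
      have e : 11 / (1 + 2 * s ^ 2) = x1 - t := by rw [ht]; ring
      rw [e]
      have hs1 : padicNorm p s ≤ 1 := by
        rw [hs]
        exact nm_add_le (nm_mul_le (nm_nat_le 11) (i0 p hp)) (nm_nat_le 7)
      exact nm_sub_le (i1 p hp) (t_le (R := ⟨s, t, ht2⟩) hs1)
  · rintro ⟨Q, hQ⟩
    have hD : 1 + 2 * Q.s ^ 2 ≠ 0 := by positivity
    have m0 : (Q.s - 7) / 11 ∈ R W := mem_of_norm fun p hp => (hQ p hp).1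
    have m1 : Q.t + 11 / (1 + 2 * Q.s ^ 2) ∈ R W := by
      apply (R W).add_mem
      · apply mem_of_norm
        intro p hp
        apply t_le
        have e : Q.s = 11 * ((Q.s - 7) / 11) + 7 := by ring
        rw [e]
        exact nm_add_le (nm_mul_le (nm_nat_le 11) (hQ p hp).1) (nm_nat_le 7)
      · exact mem_of_norm fun p hp => (hQ p hp).2
    refine ⟨![⟨_, m0⟩, ⟨_, m1⟩], ?_⟩
    rw [aeval_poly2]
    have inj : Function.Injective (R W).subtype := Subtype.coe_injective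
    apply inj
    simp only [map_add, map_mul, map_pow, map_sub, map_one, map_ofNat, map_zero,
      Subring.subtype_apply]
    show ((1 + 2 * (11 * ((Q.s - 7) / 11) + 7) ^ 2) * (Q.t + 11 / (1 + 2 * Q.s ^ 2)) - 11) ^ 2 -
      (1 + 2 * (11 * ((Q.s - 7) / 11) + 7) ^ 2) ^ 2 * (1 - 2 * (11 * ((Q.s - 7) / 11) + 7) ^ 2 -
        4 * (11 * ((Q.s - 7) / 11) + 7) ^ 4) = 0
    have e : 11 * ((Q.s - 7) / 11) + 7 = Q.s := by ring
    rw [e, ← Q.h]
    have e2 : (1 + 2 * Q.s ^ 2) * (Q.t + 11 / (1 + 2 * Q.s ^ 2)) - 11 =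
        (1 + 2 * Q.s ^ 2) * Q.t := by
      field_simp
      ring
    rw [e2]; ring

/-! ### Norms -/

instance fact11 : Fact (Nat.Prime 11) := ⟨by norm_num⟩

/-- the prime eleven -/
def p11 : Nat.Primes := ⟨11, by norm_num⟩

theorem nm_div_p {p : ℕ} [hp : Fact p.Prime] {x : ℚ} (hx : padicNorm p x < 1) :
    padicNorm p (x / (p : ℚ)) ≤ 1 := by
  by_cases h0 : x = 0
  · rw [h0, zero_div, padicNorm.zero]; exact zero_le_one
  have hp1 : (1 : ℚ) < (p : ℚ) := by exact_mod_cast hp.out.one_lt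
  have hc : padicNorm p (p : ℚ) = (p : ℚ)⁻¹ := padicNorm.padicNorm_p hp.out.one_lt
  rw [padicNorm.div, hc, div_inv_eq_mul]
  rw [padicNorm.eq_zpow_of_nonzero h0] at hx ⊢
  have h1 : -padicValRat p x < 0 := by
    by_contra hcon
    push Not at hcon
    exact absurd hx (not_lt.2 (one_le_zpow₀ hp1.le hcon))
  rw [← zpow_add_one₀ (by positivity : (p : ℚ) ≠ 0)]
  exact zpow_le_one_of_nonpos₀ hp1.le (by omega)

theorem nm_11_11 : padicNorm 11 (11 : ℚ) = (11 : ℚ)⁻¹ := by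
  have := padicNorm.padicNorm_p (p := 11) (by norm_num)
  exact_mod_cast this

theorem nm_11_eq {p : ℕ} [hp : Fact p.Prime] (h : p ≠ 11) : padicNorm p (11 : ℚ) = 1 := by
  have := (padicNorm.nat_eq_one_iff (p := p) 11).2 (by
    intro h1
    exact h ((Nat.prime_dvd_prime_iff_eq hp.out (by norm_num)).1 h1))
  exact_mod_cast this

/-! ### The prime eleven -/

theorem E1_s : (E 1).s = 2 / 5 ∧ (E 1).t = -(19 / 25) := by
  have e : E 1 = P0 + P0 := by
    unfold E; rw [pow_one, two_smul]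
  rw [e]
  constructor
  · rw [add_s]
    show ((1 / 2 : ℚ) * (1 / 2) + 1 / 2 * (1 / 2)) / (1 + 4 * (1 / 2) ^ 2 * (1 / 2) ^ 2) = 2 / 5
    norm_num
  · rw [add_t]
    show ((1 - 4 * (1 / 2 : ℚ) ^ 2 * (1 / 2) ^ 2) * (1 / 2 * (1 / 2) - 2 * (1 / 2) * (1 / 2)) -
      8 * (1 / 2) * (1 / 2) * ((1 / 2) ^ 2 + (1 / 2) ^ 2)) / (1 + 4 * (1 / 2) ^ 2 * (1 / 2) ^ 2) ^ 2
        = -(19 / 25)
    norm_num

theorem three_s : ((3 : ℕ) • P0).s = -(9 / 58) := by
  have e : (3 : ℕ) • P0 = E 1 + P0 := by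
    unfold E; rw [pow_one, succ_nsmul]
  rw [e, add_s, E1_s.1, E1_s.2]
  show (2 / 5 * (1 / 2) + 1 / 2 * (-(19 / 25)) : ℚ) / (1 + 4 * (2 / 5) ^ 2 * (1 / 2) ^ 2) = -(9 / 58)
  norm_num

theorem nm_unit_11 {n : ℕ} (h : ¬ 11 ∣ n) : padicNorm 11 (n : ℚ) = 1 :=
  (padicNorm.nat_eq_one_iff (p := 11) n).2 h

theorem nm_E1 : padicNorm 11 (1 + 2 * (E 1).s ^ 2) = (11 : ℚ)⁻¹ := by
  rw [E1_s.1]
  have e : (1 + 2 * (2 / 5 : ℚ) ^ 2) = 11 * ((3 : ℕ) : ℚ) / ((25 : ℕ) : ℚ) := by norm_num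
  rw [e, padicNorm.div, padicNorm.mul, nm_11_11, nm_unit_11 (by norm_num),
    nm_unit_11 (by norm_num)]
  norm_num

theorem tri_E1 : Tri 11 (E 1) := by
  refine ⟨?_, ?_⟩
  · rw [E1_s.1]
    have e : (2 / 5 : ℚ) = ((2 : ℕ) : ℚ) / ((5 : ℕ) : ℚ) := by norm_num
    rw [e, padicNorm.div, nm_unit_11 (by norm_num), nm_unit_11 (by norm_num)]
    norm_num
  · rw [nm_E1]; norm_num

theorem not_tri_P0 : ¬ Tri 11 P0 := by
  rintro ⟨-, h⟩
  have e : 1 + 2 * P0.s ^ 2 = ((3 : ℕ) : ℚ) / ((2 : ℕ) : ℚ) := by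
    show (1 + 2 * (1 / 2) ^ 2 : ℚ) = _
    norm_num
  rw [e, padicNorm.div, nm_unit_11 (by norm_num), nm_unit_11 (by norm_num)] at h
  norm_num at h

theorem not_tri_3P0 : ¬ Tri 11 ((3 : ℕ) • P0) := by
  rintro ⟨-, h⟩
  have e : 1 + 2 * ((3 : ℕ) • P0).s ^ 2 = ((1763 : ℕ) : ℚ) / ((1682 : ℕ) : ℚ) := by
    rw [three_s]
    norm_num
  rw [e, padicNorm.div, nm_unit_11 (by norm_num), nm_unit_11 (by norm_num)] at h
  norm_num at h

theorem ker_6P0 : Ker 11 ((6 : ℕ) • P0) := by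
  have h := tri_E1.triple (by norm_num)
  have e : (6 : ℕ) • P0 = E 1 + E 1 + E 1 := by
    unfold E
    rw [← add_smul, ← add_smul]; norm_num
  rw [e]; exact h

theorem not_ker_of_tri {Q : Pt} (h : Tri 11 Q) : ¬ Ker 11 Q := by
  intro h1
  have h2 := h.s_eq (by norm_num)
  unfold Ker at h1
  rw [h2] at h1
  exact lt_irrefl _ h1

/-- a multiple of `P0` of order three modulo eleven has index prime to three and even -/
theorem tri_index {N : ℕ} (h : Tri 11 (N • P0)) : ¬ 3 ∣ N ∧ 2 ∣ N := by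
  have hker : Ker 11 ((N / 6) • ((6 : ℕ) • P0)) := ker_6P0.nsmul _
  have e : ∀ r : ℕ, N % 6 = r → r • P0 = N • P0 + -((N / 6) • ((6 : ℕ) • P0)) := by
    intro r hr
    have h1 : N • P0 = r • P0 + (N / 6) • ((6 : ℕ) • P0) := by
      rw [← mul_smul, ← add_smul]
      congr 1; omega
    rw [h1]; abel
  have h0 : N % 6 ≠ 0 := by
    intro h0
    have h1 : N • P0 = (N / 6) • ((6 : ℕ) • P0) := by
      rw [← mul_smul]
      congr 1; omega
    rw [h1] at h
    exact not_ker_of_tri h hker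
  have h1 : N % 6 ≠ 1 := by
    intro h1
    have h2 : Tri 11 ((1 : ℕ) • P0) := by
      rw [e 1 h1]; exact h.add_ker hker.neg
    rw [one_smul] at h2
    exact not_tri_P0 h2
  have h3 : N % 6 ≠ 3 := by
    intro h3
    have h2 : Tri 11 ((3 : ℕ) • P0) := by
      rw [e 3 h3]; exact h.add_ker hker.neg
    exact not_tri_3P0 h2
  have h5 : N % 6 ≠ 5 := by
    intro h5
    have h2 : Tri 11 ((5 : ℕ) • P0) := by
      rw [e 5 h5]; exact h.add_ker hker.neg
    have h4 : P0 = -((5 : ℕ) • P0) + (6 : ℕ) • P0 := by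
      have : (6 : ℕ) • P0 = (5 : ℕ) • P0 + P0 := succ_nsmul P0 5
      rw [this]; abel
    apply not_tri_P0
    rw [h4]
    exact h2.neg.add_ker ker_6P0
  omega

theorem E_add (k l : ℕ) : E (k + l) = (2 ^ l) • E k := by
  unfold E
  rw [← mul_smul]
  congr 1
  rw [pow_add, mul_comm]

theorem tri_E {p : ℕ} [Fact p.Prime] (h2 : p ≠ 2) {k l : ℕ} (hkl : k ≤ l) (h : Tri p (E k)) :
    Tri p (E l) := by
  obtain ⟨i, rfl⟩ := Nat.exists_eq_add_of_le hkl
  rw [E_add]
  apply h.nsmul h2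
  intro h3
  have := Nat.Prime.dvd_of_dvd_pow Nat.prime_three h3
  omega

/-- doubling preserves the norm of `1 + 2 s²` at points of order three modulo eleven -/
theorem nm_double {Q : Pt} (h : Tri 11 Q) :
    padicNorm 11 (1 + 2 * (Q + Q).s ^ 2) = padicNorm 11 (1 + 2 * Q.s ^ 2) := by
  obtain ⟨hs, ht⟩ := h
  set u : ℚ := Q.s ^ 2 with hu
  set e : ℚ := 1 + 2 * u with he
  have hle : padicNorm 11 e ≤ 1 := ht.le
  have hB' : (1 + 4 * u ^ 2) ≠ 0 := by positivity
  have hs2 : (Q + Q).s = 2 * Q.s * Q.t / (1 + 4 * u ^ 2) := by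
    rw [add_s, hu]; ring_nf
  have key : 1 + 2 * (Q + Q).s ^ 2 = (1 + 2 * u) * (1 + 6 * u - 20 * u ^ 2 + 8 * u ^ 3) /
      (1 + 4 * u ^ 2) ^ 2 := by
    rw [hs2, div_pow, mul_pow, mul_pow, Q.h, eq_div_iff (pow_ne_zero 2 hB'), add_mul]
    rw [mul_assoc 2 _ ((1 + 4 * u ^ 2) ^ 2), div_mul_cancel₀ _ (pow_ne_zero 2 hB')]
    rw [hu]; ring
  have hB : padicNorm 11 (1 + 4 * u ^ 2) = 1 := by
    have e1 : 1 + 4 * u ^ 2 = 2 + (-2 + e) * e := by rw [he]; ring
    rw [e1]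
    apply nm_unit_add (nm_two_eq (by norm_num))
    apply nm_mul_lt _ ht
    apply nm_add_le _ hle
    rw [padicNorm.neg]; exact nm_two_le
  have hT : padicNorm 11 (1 + 6 * u - 20 * u ^ 2 + 8 * u ^ 3) = 1 := by
    have e1 : 1 + 6 * u - 20 * u ^ 2 + 8 * u ^ 3 = -8 + (16 - 8 * e + e ^ 2) * e := by
      rw [he]; ring
    rw [e1]
    apply nm_unit_add
    · rw [padicNorm.neg]; exact nm_eight_eq (by norm_num)
    · apply nm_mul_lt _ ht
      apply nm_add_le
      · apply nm_sub_le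
        · exact nm_nat_le 16
        · exact nm_mul_le nm_eight_le hle
      · exact nm_pow_le hle 2
  rw [key, padicNorm.div, padicNorm.mul, nm_pow, hB, hT, one_pow, div_one, mul_one]

theorem nm_E (k : ℕ) : padicNorm 11 (1 + 2 * (E (k + 1)).s ^ 2) = (11 : ℚ)⁻¹ := by
  induction k with
  | zero => exact nm_E1
  | succ k ih =>
    rw [E_succ (k + 1), nm_double (tri_E (by norm_num) (by omega) tri_E1)]
    exact ih

/-! ### Non-solvability -/

theorem no_sol2 {k : ℕ} {q : Nat.Primes} (hq2 : (q : ℕ) ≠ 2) (hq11 : (q : ℕ) ≠ 11)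
    (hqt : Tri q (E (k + 1))) {W : Nat.Primes → Bool} (hW11 : W p11 = false)
    (hWP : ∀ j < k, W (P j) = false) (hWq : W q = false) : W ∉ A poly2 := by
  rw [mem_A2_iff]
  rintro ⟨Q, hQ⟩
  -- integrality of `s`
  have hint : ∀ p : Nat.Primes, W p = false → padicNorm p Q.s ≤ 1 := by
    intro p hp
    have e : Q.s = 11 * ((Q.s - 7) / 11) + 7 := by ring
    rw [e]
    exact nm_add_le (nm_mul_le (nm_nat_le 11) (hQ p hp).1) (nm_nat_le 7)
  -- `Q` has order three modulo eleven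
  have hz : padicNorm 11 ((Q.s - 7) / 11) ≤ 1 := (hQ p11 hW11).1
  have hs11 : padicNorm 11 Q.s ≤ 1 := hint p11 hW11
  have h11 : padicNorm 11 (11 : ℚ) < 1 := by rw [nm_11_11]; norm_num
  have htri : Tri 11 Q := by
    refine ⟨hs11, ?_⟩
    have e : 1 + 2 * Q.s ^ 2 = (2 * (Q.s + 7) * ((Q.s - 7) / 11) + 9) * 11 := by ring
    rw [e]
    apply nm_mul_lt _ h11
    apply nm_add_le _ (nm_nat_le 9)
    exact nm_mul_le (nm_mul_le nm_two_le (nm_add_le hs11 (nm_nat_le 7))) hz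
  have hs0 : Q.s ≠ 0 := by
    intro h
    have h1 := htri.s_eq (by norm_num)
    rw [h, padicNorm.zero] at h1
    norm_num at h1
  obtain ⟨e, m, hm, hs⟩ := exists_mult' hs0
  have hsq : Q.s ^ 2 = (m • E e).s ^ 2 := by
    rcases hs with h | h
    · rw [h]
    · rw [h]; ring
  have hnm : ∀ p : Nat.Primes, padicNorm p (m • E e).s = padicNorm p Q.s := by
    intro p
    rcases hs with h | h
    · rw [h]
    · rw [h, padicNorm.neg]
  have htri' : Tri 11 (m • E e) := by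
    refine ⟨?_, ?_⟩
    · have := hnm p11
      change padicNorm 11 (m • E e).s = padicNorm 11 Q.s at this
      rw [this]; exact hs11
    · rw [← hsq]; exact htri.2
  have hidx : ¬ 3 ∣ m * 2 ^ e ∧ 2 ∣ m * 2 ^ e := by
    apply tri_index
    have e1 : (m * 2 ^ e) • P0 = m • E e := by unfold E; rw [mul_smul]
    rw [e1]; exact htri'
  have he : 1 ≤ e := by
    by_contra hcon
    have he0 : e = 0 := by omega
    subst he0
    rw [pow_zero, mul_one] at hidx
    obtain ⟨i, rfl⟩ := hm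
    omega
  rcases Nat.lt_or_ge k e with hke | hke
  · -- multiples of a high power of two
    obtain ⟨i, rfl⟩ := Nat.exists_eq_add_of_le (show k + 1 ≤ e from hke)
    have h3 : Tri q (m • E (k + 1 + i)) := by
      rw [E_add, ← mul_smul]
      apply hqt.nsmul hq2
      intro h3
      apply hidx.1
      rw [pow_add, ← mul_assoc, mul_comm m, mul_assoc]
      exact Dvd.dvd.mul_left h3 _
    have h4 : padicNorm q (1 + 2 * Q.s ^ 2) < 1 := by rw [hsq]; exact h3.2
    have h5 := (hQ q hWq).2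
    have hD : 1 + 2 * Q.s ^ 2 ≠ 0 := by positivity
    have h6 : 0 < padicNorm q (1 + 2 * Q.s ^ 2) :=
      lt_of_le_of_ne (nm_nonneg _) (Ne.symm (padicNorm.nonzero hD))
    rw [padicNorm.div, nm_11_eq hq11, div_le_one h6] at h5
    linarith
  · -- the remaining multiples
    obtain ⟨j, rfl⟩ : ∃ j, e = j + 1 := ⟨e - 1, by omega⟩
    have hb : Big (P j) (m • E (j + 1)) := (P_big j).odd_nsmul (P_ne j) hm
    have h5 : 1 < padicNorm (P j) (m • E (j + 1)).s := hb
    have h6 := hint (P j) (hWP j (by omega))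
    rw [hnm] at h5
    linarith

/-! ### Solvability -/

theorem sol2_of {Q : Pt} {k : ℕ} (hQs : Q.s ^ 2 = (E (k + 1)).s ^ 2)
    (h7 : padicNorm 11 (Q.s - 7) < 1) {W : Nat.Primes → Bool}
    (hW : ∀ p, W p = false → p = p11 ∨ ∃ j < k, P j = p) : W ∈ A poly2 := by
  rw [mem_A2_iff]
  refine ⟨Q, fun p hp => ?_⟩
  have hD : 1 + 2 * Q.s ^ 2 ≠ 0 := by positivity
  rcases hW p hp with rfl | ⟨j, hj, rfl⟩
  · constructor
    · have h := nm_div_p (p := 11) h7
      exact_mod_cast h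
    · show padicNorm 11 (11 / (1 + 2 * Q.s ^ 2)) ≤ 1
      rw [hQs, padicNorm.div, nm_E k, nm_11_11]
      norm_num
  · have hk : Ker (P j) (E (k + 1)) := E_ker_P hj
    have hk1 : padicNorm (P j) Q.s < 1 := by
      have h1 : padicNorm (P j) (Q.s ^ 2) < 1 := by
        rw [hQs]; exact nm_pow_lt hk (by norm_num)
      rw [nm_pow] at h1
      by_contra hcon
      push Not at hcon
      have := one_le_pow₀ (n := 2) hcon
      linarith
    have hne : ((P j : Nat.Primes) : ℕ) ≠ 11 := by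
      intro h
      apply P_mod j
      rw [h]
    constructor
    · rw [padicNorm.div, nm_11_eq hne, div_one]
      exact nm_sub_le hk1.le (nm_nat_le 7)
    · have h1 : padicNorm (P j) (1 + 2 * Q.s ^ 2) = 1 :=
        nm_one_add (nm_mul_lt nm_two_le (nm_pow_lt hk1 (by norm_num)))
      rw [padicNorm.div, nm_11_eq hne, h1, div_one]

theorem sol2 (k : ℕ) {W : Nat.Primes → Bool}
    (hW : ∀ p, W p = false → p = p11 ∨ ∃ j < k, P j = p) : W ∈ A poly2 := by
  have h11 : padicNorm 11 (11 : ℚ) < 1 := by rw [nm_11_11]; norm_num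
  have h1 : padicNorm 11 (((E (k + 1)).s - 7) * ((E (k + 1)).s + 7)) < 1 := by
    have h2 : padicNorm 11 (2 * (((E (k + 1)).s - 7) * ((E (k + 1)).s + 7))) < 1 := by
      have e : 2 * (((E (k + 1)).s - 7) * ((E (k + 1)).s + 7)) =
          (1 + 2 * (E (k + 1)).s ^ 2) - 9 * 11 := by ring
      rw [e]
      apply nm_sub_lt
      · rw [nm_E k]; norm_num
      · exact nm_mul_lt (nm_nat_le 9) h11
    rwa [padicNorm.mul, nm_two_eq (by norm_num), one_mul] at h2
  rw [padicNorm.mul] at h1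
  by_cases h2 : padicNorm 11 ((E (k + 1)).s - 7) < 1
  · exact sol2_of rfl h2 hW
  · have h3 : padicNorm 11 ((E (k + 1)).s + 7) < 1 := by
      by_contra h3
      push Not at h2 h3
      have := one_le_mul_of_one_le_of_one_le h2 h3
      linarith
    refine sol2_of (Q := -E (k + 1)) (k := k) ?_ ?_ hW
    · rw [neg_s]; ring
    · rw [neg_s]
      have e : -(E (k + 1)).s - 7 = -((E (k + 1)).s + 7) := by ring
      rw [e, padicNorm.neg]; exact h3

/-! ### The primes `r l` -/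

theorem exists_r (l : ℕ) : ∃ q : Nat.Primes, (q : ℕ) ≠ 2 ∧ ¬ Tri q (E (l + 1)) ∧
    Tri q (E (l + 2)) := by
  obtain ⟨p, hp, hp2, h1, h2⟩ := (E_good l).new_tri
  refine ⟨⟨p, hp⟩, hp2, h1, ?_⟩
  rw [← E_succ] at h2
  exact h2

/-- a prime modulo which `2^(l+2) P0` has order three and `2^(l+1) P0` does not -/
noncomputable def r (l : ℕ) : Nat.Primes := (exists_r l).choose

theorem r_two (l : ℕ) : (r l : ℕ) ≠ 2 := (exists_r l).choose_spec.1
theorem r_not (l : ℕ) : ¬ Tri (r l) (E (l + 1)) := (exists_r l).choose_spec.2.1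
theorem r_tri (l : ℕ) : Tri (r l) (E (l + 2)) := (exists_r l).choose_spec.2.2

theorem r_ne_11 (l : ℕ) : (r l : ℕ) ≠ 11 := by
  intro h
  have h1 := r_not l
  have e : r l = p11 := Subtype.ext h
  rw [e] at h1
  exact h1 (tri_E (p := 11) (by norm_num) (by omega) tri_E1)

theorem r_ne {l l' : ℕ} (h : l' < l) : r l ≠ r l' := by
  intro he
  have h1 := r_not l
  rw [he] at h1
  exact h1 (tri_E (r_two l') (by omega) (r_tri l'))

/-! ### Topology -/

open Classical in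
/-- the complement of `{11} ∪ {P j}` -/
noncomputable def Vinf : Nat.Primes → Bool := fun p => decide (p ≠ p11 ∧ ∀ j, P j ≠ p)

open Classical in
/-- the complement of `{11} ∪ {P j : j < k}` -/
noncomputable def V1 (k : ℕ) : Nat.Primes → Bool := fun p => decide (p ≠ p11 ∧ ∀ j < k, P j ≠ p)

open Classical in
/-- the complement of `{11} ∪ {P j : j < l + 1} ∪ {r l}` -/
noncomputable def V2 (l : ℕ) : Nat.Primes → Bool :=
  fun p => decide (p ≠ p11 ∧ (∀ j < l + 1, P j ≠ p) ∧ r l ≠ p)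

theorem V1_tendsto : Filter.Tendsto V1 Filter.atTop (nhds Vinf) := by
  rw [tendsto_pi_nhds]
  intro p
  apply tendsto_const_nhds.congr'
  by_cases h : ∃ j, P j = p
  · obtain ⟨j, hj⟩ := h
    filter_upwards [Filter.eventually_gt_atTop j] with k hk
    unfold Vinf V1
    rw [decide_eq_decide]
    exact ⟨fun h' => absurd hj (h'.2 j), fun h' => absurd hj (h'.2 j hk)⟩
  · push Not at h
    apply Filter.Eventually.of_forall
    intro k
    unfold Vinf V1
    rw [decide_eq_decide]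
    exact ⟨fun h' => ⟨h'.1, fun j _ => h'.2 j⟩, fun h' => ⟨h'.1, h⟩⟩

theorem V2_tendsto : Filter.Tendsto V2 Filter.atTop (nhds Vinf) := by
  rw [tendsto_pi_nhds]
  intro p
  apply tendsto_const_nhds.congr'
  by_cases h : ∃ j, P j = p
  · obtain ⟨j, hj⟩ := h
    filter_upwards [Filter.eventually_gt_atTop j] with k hk
    unfold Vinf V2
    rw [decide_eq_decide]
    exact ⟨fun h' => absurd hj (h'.2 j), fun h' => absurd hj (h'.2.1 j (by omega))⟩
  · push Not at h
    have hev : ∀ᶠ k in Filter.atTop, r k ≠ p := by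
      by_cases h2 : ∃ k, r k = p
      · obtain ⟨k, hk⟩ := h2
        filter_upwards [Filter.eventually_gt_atTop k] with l hl
        rw [← hk]
        exact r_ne hl
      · push Not at h2
        exact Filter.Eventually.of_forall h2
    filter_upwards [hev] with k hk
    unfold Vinf V2
    rw [decide_eq_decide]
    exact ⟨fun h' => ⟨h'.1, fun j _ => h j, hk⟩, fun h' => ⟨h'.1, h⟩⟩

theorem V2_mem (l : ℕ) : V2 l ∈ C poly2 := by
  classical
  unfold C
  rw [mem_interior]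
  refine ⟨{W | ∀ p ∈ insert p11 (insert (r l) ((Finset.range (l + 1)).image P)), W p = false},
    ?_, isOpen_cyl _, ?_⟩
  · intro W hW
    apply no_sol2 (k := l + 1) (q := r l) (r_two l) (r_ne_11 l) (r_tri l)
    · exact hW _ (Finset.mem_insert_self _ _)
    · intro j hj
      exact hW _ (Finset.mem_insert_of_mem (Finset.mem_insert_of_mem
        (Finset.mem_image_of_mem _ (Finset.mem_range.2 hj))))
    · exact hW _ (Finset.mem_insert_of_mem (Finset.mem_insert_self _ _))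
  · intro p hp
    unfold V2
    rw [decide_eq_false_iff_not]
    rintro ⟨h3, h4, h5⟩
    rcases Finset.mem_insert.1 hp with h6 | h6
    · exact h3 h6
    · rcases Finset.mem_insert.1 h6 with h7 | h7
      · exact h5 h7.symm
      · obtain ⟨j, hj, h8⟩ := Finset.mem_image.1 h7
        exact h4 j (Finset.mem_range.1 hj) h8

theorem not_isClosed2 : ¬ IsClosed (C poly2) := by
  intro hcl
  have h1 : Vinf ∈ closure (C poly2) :=
    mem_closure_of_tendsto V2_tendsto (Filter.Eventually.of_forall V2_mem)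
  rw [hcl.closure_eq] at h1
  have h2 : Vinf ∈ closure (A poly2) := by
    apply mem_closure_of_tendsto V1_tendsto
    apply Filter.Eventually.of_forall
    intro k
    apply sol2 k
    intro p hp
    unfold V1 at hp
    rw [decide_eq_false_iff_not] at hp
    by_cases h : p = p11
    · exact Or.inl h
    · right
      by_contra hcon
      push Not at hcon
      exact hp ⟨h, hcon⟩
  unfold C at h1
  rw [interior_compl] at h1
  exact h1 h2

theorem poly2_not : ¬ ∃ S : Finset (Finset Nat.Primes × Finset Nat.Primes),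
    C poly2 = ⋃ x ∈ S, U x.1 x.2 := by
  rintro ⟨S, hS⟩
  apply not_isClosed2
  rw [hS]
  exact isClosed_biUnion_finset fun x _ => isClosed_U x.1 x.2

theorem two_vars {n : ℕ} (hn : 2 ≤ n) : ∃ f : MvPolynomial (Fin n) ℤ,
    ¬ ∃ S : Finset (Finset Nat.Primes × Finset Nat.Primes), C f = ⋃ x ∈ S, U x.1 x.2 := by
  refine ⟨rename (Fin.castLEEmb hn) poly2, ?_⟩
  have h : C (rename (Fin.castLEEmb hn) poly2) = C poly2 := by
    unfold C
    rw [A_rename]
  rw [h]
  exact poly2_not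

end Pool.Agent.Y668.FV
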